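import Pool.Agent.KS6_17.AM.Main

/-!
# The amiable semigroups avoiding `F` are not an elementary class (MP_e1ef61_al)

The library shows that the class `K` of the amiable semigroups avoiding `F` is not closed under
direct products, so it is not a quasivariety. Here: the countable monoid `S` of the order-preserving
extensive maps of `ℕ` with finitely many moved points is amiable and avoids `F`, and its ultrapower
is amiable and contains `F`. The two algebras satisfy the same first-order sentences. So the
amiable semigroups avoiding `F` are not axiomatised by any set of first-order sentences, and neither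
are the amiable semigroups which contain `F`.
-/

open FirstOrder Pool.Agent.Results.MP_e1ef61_al.NotQuasivariety Pool.Agent.KS6_17.AM in
/-- (1) There are elementarily equivalent amiable semigroups (as algebras of type `⟨2, 1, 1⟩`) `S`,
`U`, the first one countable, such that `S` avoids `F` and `U` does not. (2) There is no set `T` of
first-order sentences such that an amiable semigroup satisfies `T` if and only if it avoids `F`.
(3) There is no set `T` of first-order sentences such that an amiable semigroup satisfies `T` if and
only if it contains `F`. (4) The class `K` of Q1 is not the class of models of a set of first-order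
sentences, (5) in particular not of a set of quasi-identities. -/
theorem Pool.Agent.Results.MP_e1ef61_al.NotElementary.result :
    (∃ (S U : Type) (_ : Lang.Structure S) (_ : Lang.Structure U), Countable S ∧
      IsAmiable (toAlg S) ∧ IsAmiable (toAlg U) ∧ Lang.ElementarilyEquivalent S U ∧
      AvoidsF (toAlg S) ∧ ¬ AvoidsF (toAlg U)) ∧
    (¬ ∃ T : Lang.Theory, ∀ (M : Type) [Lang.Structure M], IsAmiable (toAlg M) →
      (M ⊨ T ↔ AvoidsF (toAlg M))) ∧
    (¬ ∃ T : Lang.Theory, ∀ (M : Type) [Lang.Structure M], IsAmiable (toAlg M) →
      (M ⊨ T ↔ ¬ AvoidsF (toAlg M))) ∧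
    (¬ ∃ T : Lang.Theory, ∀ (M : Type) [Lang.Structure M], M ⊨ T ↔ InK (toAlg M)) ∧
    ¬ ∃ E : Set QuasiId, ∀ A : Alg, InK A ↔ ∀ q ∈ E, Sat A q := by
  have hS := good_S.amiable
  have hU := good_U.amiable
  refine ⟨⟨S, U, inferInstance, inferInstance, countable_S, hS, hU, elem, avoids_S, not_avoids_U⟩,
    ?_, ?_, ?_, NotQuasivariety.result.1⟩
  · rintro ⟨T, hT⟩
    exact not_avoids_U ((hT U hU).1 (elem.theory_model_iff.1 ((hT S hS).2 avoids_S)))
  · rintro ⟨T, hT⟩
    exact ((hT S hS).1 (elem.theory_model_iff.2 ((hT U hU).2 not_avoids_U))) avoids_S
  · rintro ⟨T, hT⟩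
    exact not_avoids_U ((hT U).1 (elem.theory_model_iff.1 ((hT S).2 ⟨hS, avoids_S⟩))).2
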